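import Pool.Agent.W115.Mon2.Tree

/-!
The exponent of the predicate `x ≠ 0`, which is the largest one.
-/

set_option linter.unusedSectionVars false

namespace Pool.Agent.W115.Mon2

open Finset Mon

variable {q k : ℕ} [NeZero q]

theorem core_of_good {P : (Fin k → ZMod q) → Prop} {z : Fin k → ZMod q} (hz : ¬ P z)
    {F : Finset (Finset (ℕ × ZMod q))} (hG : Good F) (hw : ∀ c ∈ F, c.card = k) {ρ : ℝ}
    (hρ : 0 ≤ ρ) (hρq : ρ * (q - 1 : ℕ) ≤ 1)
    (hF : ρ * ((q - 1 : ℕ) * (vsC F).card + 1) ≤ (vsC F).card) : HasCore P ρ := by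
  classical
  obtain ⟨v, ⟨e⟩⟩ : ∃ v, Nonempty (vsC F ≃ Fin v) := ⟨_, ⟨(vsC F).equivFin⟩⟩
  let en : (c : F) → Fin k ≃ c.1 := fun c => (c.1.equivFinOfCardEq (hw c.1 c.2)).symm
  have hmem : ∀ (c : F) (i : Fin k), (en c i).1.1 ∈ vsC F := fun c i =>
    mem_biUnion.mpr ⟨c.1, c.2, mem_image.mpr ⟨(en c i).1, (en c i).2, rfl⟩⟩
  have hinj : ∀ c : F, Function.Injective fun i => e ⟨(en c i).1.1, hmem c i⟩ := by
    intro c i j hij
    have h1 : (en c i).1.1 = (en c j).1.1 := congrArg Subtype.val (e.injective hij)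
    have h2 : Set.InjOn Prod.fst (c.1 : Set (ℕ × ZMod q)) :=
      Finset.card_image_iff.mp (hG.distinct c.1 c.2)
    have h3 := h2 (en c i).2 (en c j).2 h1
    exact (en c).injective (Subtype.ext h3)
  let con : F → Con q v k := fun c =>
    (⟨fun i => e ⟨(en c i).1.1, hmem c i⟩, hinj c⟩, fun i => z i - (en c i).1.2)
  have hcon1 : ∀ c i, (con c).1 i = e ⟨(en c i).1.1, hmem c i⟩ := fun _ _ => rfl
  have hcon2 : ∀ c i, (con c).2 i = z i - (en c i).1.2 := fun _ _ => rfl
  have hconinj : Function.Injective con := by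
    intro c d hcd
    have h1 : ∀ i, (en c i).1 = (en d i).1 := by
      intro i
      have h2 : (con c).1 i = (con d).1 i := by rw [hcd]
      have h3 : (con c).2 i = (con d).2 i := by rw [hcd]
      rw [hcon1, hcon1] at h2
      rw [hcon2, hcon2] at h3
      have h4 : (en c i).1.1 = (en d i).1.1 := congrArg Subtype.val (e.injective h2)
      have h5 : (en c i).1.2 = (en d i).1.2 := by
        have := sub_right_injective h3
        exact this
      exact Prod.ext h4 h5
    apply Subtype.ext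
    ext x
    constructor
    · intro hx
      obtain ⟨i, hi⟩ := (en c).surjective ⟨x, hx⟩
      have h6 : x = (en d i).1 := by rw [← h1 i, hi]
      rw [h6]
      exact (en d i).2
    · intro hx
      obtain ⟨i, hi⟩ := (en d).surjective ⟨x, hx⟩
      have h6 : x = (en c i).1 := by rw [h1 i, hi]
      rw [h6]
      exact (en c i).2
  refine ⟨v, univ.image con, ?_, ?_⟩
  · intro α
    let β : ℕ → ZMod q := fun x => if h : x ∈ vsC F then α (e ⟨x, h⟩) else 0
    obtain ⟨c, hc, hβ⟩ := hG.unsat β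
    refine ⟨con ⟨c, hc⟩, mem_image_of_mem _ (mem_univ _), ?_⟩
    unfold Con.Holds
    have : (fun i => α ((con ⟨c, hc⟩).1 i) + (con ⟨c, hc⟩).2 i) = z := by
      funext i
      rw [hcon1, hcon2]
      have h1 := hβ (en ⟨c, hc⟩ i).1 (en ⟨c, hc⟩ i).2
      have h2 : β (en ⟨c, hc⟩ i).1.1 = α (e ⟨(en ⟨c, hc⟩ i).1.1, hmem ⟨c, hc⟩ i⟩) :=
        dif_pos (hmem ⟨c, hc⟩ i)
      rw [h2] at h1
      rw [h1]
      ring
    rw [this]
    exact hz
  · intro J hJ hJne
    set J' : Finset (Finset (ℕ × ZMod q)) :=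
      (univ.filter fun c : F => con c ∈ J).map (Function.Embedding.subtype _) with hJ'
    have hJ'F : J' ⊆ F := by
      intro c hc
      rw [hJ', mem_map] at hc
      obtain ⟨c', _, rfl⟩ := hc
      exact c'.2
    have hcard : J.card = J'.card := by
      have h1 : J = (univ.filter fun c : F => con c ∈ J).image con := by
        ext d
        simp only [mem_image, mem_filter, mem_univ, true_and]
        constructor
        · intro hd
          obtain ⟨c, -, rfl⟩ := mem_image.mp (hJ hd)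
          exact ⟨c, hd, rfl⟩
        · rintro ⟨c, hc, rfl⟩
          exact hc
      rw [hJ', card_map]
      conv_lhs => rw [h1]
      exact Finset.card_image_of_injective _ hconinj
    have hvars : (vsC J').card ≤ (varsOf J).card := by
      have hsub : vsC J' ⊆ vsC F := vsC_mono hJ'F
      rw [← Finset.card_attach]
      apply Finset.card_le_card_of_injOn (fun x : {x // x ∈ vsC J'} => e ⟨x.1, hsub x.2⟩)
      · rintro ⟨x, hx⟩ _
        obtain ⟨c, hc, hxc⟩ := mem_biUnion.mp hx
        rw [hJ', mem_map] at hc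
        obtain ⟨c', hc', rfl⟩ := hc
        obtain ⟨l, hl, rfl⟩ := mem_image.mp hxc
        obtain ⟨i, hi⟩ := (en c').surjective ⟨l, hl⟩
        rw [mem_coe]
        refine mem_biUnion.mpr ⟨con c', (mem_filter.mp hc').2, ?_⟩
        refine mem_map.mpr ⟨i, mem_univ _, ?_⟩
        rw [hcon1]
        congr 1
        apply Subtype.ext
        show (en c' i).1.1 = l.1
        rw [hi]
      · intro x _ y _ hxy
        have := congrArg Subtype.val (e.injective hxy)
        exact Subtype.ext this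
    have hvR : ((vsC J').card : ℝ) ≤ (varsOf J).card := by exact_mod_cast hvars
    rw [hcard]
    by_cases hJF : J' = F
    · rw [hJF] at hvR ⊢
      rw [hG.size]
      push_cast
      exact hF.trans hvR
    · have h1 := hG.sub J' (Finset.ssubset_iff_subset_ne.mpr ⟨hJ'F, hJF⟩)
      have h2 : (J'.card : ℝ) ≤ (q - 1 : ℕ) * (vsC J').card := by exact_mod_cast h1
      calc ρ * J'.card ≤ ρ * ((q - 1 : ℕ) * (vsC J').card) := mul_le_mul_of_nonneg_left h2 hρ
        _ = (ρ * (q - 1 : ℕ)) * (vsC J').card := by ring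
        _ ≤ 1 * (vsC J').card := mul_le_mul_of_nonneg_right hρq (Nat.cast_nonneg _)
        _ ≤ _ := by rw [one_mul]; exact hvR

/-- Every predicate with a rejected vector has unsatisfiable sets of constraints of all densities
below `1 / (q - 1)`. -/
theorem core_of_lt_inv {P : (Fin k → ZMod q) → Prop} (hP : ∃ x, ¬ P x) (hq : 2 ≤ q)
    (hk : 2 ≤ k) {ρ : ℝ} (hρ : ρ < 1 / ((q : ℝ) - 1)) : HasCore P ρ := by
  have hqR : (1 : ℝ) ≤ (q : ℝ) - 1 := by
    have : (2 : ℝ) ≤ q := by exact_mod_cast hq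
    linarith
  have hqc : ((q - 1 : ℕ) : ℝ) = (q : ℝ) - 1 := by
    rw [Nat.cast_sub (by omega)]; simp
  rcases lt_or_ge ρ 0 with h0 | h0
  · exact core_mono (core_zero hP) h0.le
  · obtain ⟨z, hz⟩ := hP
    have h1 : ρ * ((q : ℝ) - 1) < 1 := by
      rwa [lt_div_iff₀ (by linarith)] at hρ
    obtain ⟨N, hN⟩ := exists_nat_gt (ρ / (1 - ρ * ((q : ℝ) - 1)))
    obtain ⟨F, hG, hw, hNF⟩ := exists_large (q := q) (k := k) hq hk N
    refine core_of_good hz hG hw h0 (by rw [hqc]; exact h1.le) ?_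
    rw [hqc]
    have h2 : (0 : ℝ) < 1 - ρ * ((q : ℝ) - 1) := by linarith
    have h3 : (N : ℝ) ≤ (vsC F).card := by exact_mod_cast hNF
    rw [div_lt_iff₀ h2] at hN
    nlinarith

open Classical in
theorem nonzero_core (hq : 2 ≤ q) {ρ : ℝ} (h : HasCore (nonzero q k) ρ) :
    ρ ≤ 1 / ((q : ℝ) - 1) := by
  have hqR : (1 : ℝ) ≤ (q : ℝ) - 1 := by
    have : (2 : ℝ) ≤ q := by exact_mod_cast hq
    linarith
  have hqc : ((q - 1 : ℕ) : ℝ) = (q : ℝ) - 1 := by
    rw [Nat.cast_sub (by omega)]; simp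
  obtain ⟨v, I, hU, hI⟩ := h
  by_contra hcon
  push Not at hcon
  -- Hall's condition
  let t : I → Finset (Fin v × Fin (q - 1)) := fun c => (univ.map c.1.1) ×ˢ univ
  have hall : ∀ s : Finset I, s.card ≤ (s.biUnion t).card := by
    intro s
    rcases s.eq_empty_or_nonempty with rfl | hs
    · simp
    set J : Finset (Con q v k) := s.map (Function.Embedding.subtype _) with hJ
    have h1 := hI J (by
      intro c hc
      rw [hJ, mem_map] at hc
      obtain ⟨c', _, rfl⟩ := hc
      exact c'.2) (by rw [hJ]; simpa using hs)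
    have h2 : s.biUnion t = (varsOf J) ×ˢ (univ : Finset (Fin (q - 1))) := by
      ext ⟨x, j⟩
      simp only [mem_biUnion, t, mem_product, mem_univ, and_true, varsOf, hJ, mem_map,
        Function.Embedding.subtype_apply]
      constructor
      · rintro ⟨c, hc, hx⟩
        exact ⟨c.1, ⟨c, hc, rfl⟩, hx⟩
      · rintro ⟨c, ⟨c', hc', rfl⟩, hx⟩
        exact ⟨c', hc', hx⟩
    rw [h2, card_product, card_univ, Fintype.card_fin]
    have h3 : J.card = s.card := by rw [hJ, card_map]
    rw [h3] at h1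
    have h4 : (0 : ℝ) < s.card := by exact_mod_cast Finset.card_pos.mpr hs
    have h5 : (s.card : ℝ) ≤ (varsOf J).card * (q - 1 : ℕ) := by
      rw [hqc]
      have h6 : 1 / ((q : ℝ) - 1) * s.card ≤ (varsOf J).card :=
        (mul_le_mul_of_nonneg_right hcon.le h4.le).trans h1
      calc (s.card : ℝ) = (1 / ((q : ℝ) - 1) * s.card) * ((q : ℝ) - 1) := by
            field_simp
        _ ≤ _ := mul_le_mul_of_nonneg_right h6 (by linarith)
    exact_mod_cast h5
  obtain ⟨f, hf, hft⟩ := (Finset.all_card_le_biUnion_card_iff_exists_injective t).mp hall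
  have hidx : ∀ c : I, ∃ i, c.1.1 i = (f c).1 := by
    intro c
    have := hft c
    simp only [t, mem_product, mem_univ, and_true, mem_map, true_and] at this
    exact this
  choose idx hidx using hidx
  let forb : Fin v → Finset (ZMod q) := fun y =>
    univ.image fun j : Fin (q - 1) =>
      if h : ∃ c, f c = (y, j) then - h.choose.1.2 (idx h.choose) else 0
  have hforb : ∀ y, ∃ a, a ∉ forb y := by
    intro y
    by_contra hcon'
    push Not at hcon'
    have h1 : forb y = univ := Finset.eq_univ_iff_forall.mpr hcon'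
    have h2 : (forb y).card ≤ q - 1 := by
      refine card_image_le.trans ?_
      rw [card_univ, Fintype.card_fin]
    rw [h1, card_univ, ZMod.card] at h2
    omega
  choose α hα using hforb
  obtain ⟨c, hc, hnc⟩ := hU α
  apply hnc
  refine ⟨idx ⟨c, hc⟩, ?_⟩
  intro h0
  apply hα (f ⟨c, hc⟩).1
  simp only [forb, mem_image, mem_univ, true_and]
  refine ⟨(f ⟨c, hc⟩).2, ?_⟩
  have hex : ∃ d, f d = ((f ⟨c, hc⟩).1, (f ⟨c, hc⟩).2) := ⟨⟨c, hc⟩, rfl⟩
  rw [dif_pos hex]
  have h1 : hex.choose = ⟨c, hc⟩ := hf hex.choose_spec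
  rw [h1]
  have h2 := hidx ⟨c, hc⟩
  simp only at h2
  rw [← h2]
  exact (eq_neg_of_add_eq_zero_left h0).symm

theorem exponent_le {P : (Fin k → ZMod q) → Prop} (hP : ∃ x, ¬ P x) (hq : 2 ≤ q)
    (hk : 2 ≤ k) : exponent P ≤ k - 1 / ((q : ℝ) - 1) := by
  have : 1 / ((q : ℝ) - 1) ≤ sSup {ρ : ℝ | HasCore P ρ} := by
    apply le_of_forall_lt
    intro ρ hρ
    obtain ⟨ρ', h1, h2⟩ := exists_between hρ
    exact h1.trans_le (le_csSup (core_bdd P) (core_of_lt_inv hP hq hk h2))
  unfold exponent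
  linarith

theorem nonzero_rejects (q k : ℕ) : ∃ x, ¬ nonzero q k x := by
  refine ⟨fun _ => 0, ?_⟩
  rintro ⟨i, hi⟩
  exact hi rfl

theorem nonzero_exponent (hq : 2 ≤ q) (hk : 2 ≤ k) :
    exponent (nonzero q k) = k - 1 / ((q : ℝ) - 1) := by
  apply le_antisymm (exponent_le (nonzero_rejects q k) hq hk)
  have : sSup {ρ : ℝ | HasCore (nonzero q k) ρ} ≤ 1 / ((q : ℝ) - 1) :=
    csSup_le ⟨0, core_zero (nonzero_rejects q k)⟩ fun _ h => nonzero_core hq h
  unfold exponent
  linarith

end Pool.Agent.W115.Mon2
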