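import Pool.Agent.W115.Mon2.UpperAsym

/-!
Bounds for the exponent of a predicate: certificates and linear equations.
-/

set_option linter.unusedSectionVars false

namespace Pool.Agent.W115.Mon2

open Finset Mon

variable {q k : ℕ} [NeZero q]

theorem core_mono {P : (Fin k → ZMod q) → Prop} {ρ ρ' : ℝ} (h : HasCore P ρ) (hρ : ρ' ≤ ρ) :
    HasCore P ρ' := by
  obtain ⟨v, I, hU, hI⟩ := h
  exact ⟨v, I, hU, fun J hJ hne => (mul_le_mul_of_nonneg_right hρ (Nat.cast_nonneg _)).trans
    (hI J hJ hne)⟩

theorem core_zero {P : (Fin k → ZMod q) → Prop} (hP : ∃ x, ¬ P x) : HasCore P 0 := by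
  obtain ⟨x, hx⟩ := hP
  refine ⟨k, univ, ?_, fun J _ _ => by simp⟩
  intro α
  refine ⟨(Function.Embedding.refl _, fun i => x i - α i), mem_univ _, ?_⟩
  unfold Con.Holds
  have : (fun i => α ((Function.Embedding.refl (Fin k)) i) + (x i - α i)) = x := by
    funext i
    simp
  rw [this]
  exact hx

theorem core_bdd (P : (Fin k → ZMod q) → Prop) : BddAbove {ρ : ℝ | HasCore P ρ} :=
  ⟨k, fun _ h => core_le h⟩

theorem core_of_lt {P : (Fin k → ZMod q) → Prop} (hP : ∃ x, ¬ P x) {ρ : ℝ}
    (h : ρ < sSup {ρ : ℝ | HasCore P ρ}) : HasCore P ρ := by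
  obtain ⟨ρ', h1, h2⟩ := exists_lt_of_lt_csSup ⟨0, core_zero hP⟩ h
  exact core_mono h1 h2.le

theorem no_core_of_lt {P : (Fin k → ZMod q) → Prop} {ρ : ℝ}
    (h : sSup {ρ : ℝ | HasCore P ρ} < ρ) : ¬ HasCore P ρ := fun hc =>
  absurd (le_csSup (core_bdd P) hc) (not_le.mpr h)

theorem sup_nonneg {P : (Fin k → ZMod q) → Prop} (hP : ∃ x, ¬ P x) :
    0 ≤ sSup {ρ : ℝ | HasCore P ρ} := le_csSup (core_bdd P) (core_zero hP)

open Classical in
/-- An unsatisfiable set of constraints contains a minimal one. -/
theorem exists_minimal {P : (Fin k → ZMod q) → Prop} {v : ℕ} {I : Finset (Con q v k)}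
    (h : Unsat P I) : ∃ J ⊆ I, Unsat P J ∧ ∀ e ∈ J, ¬ Unsat P (J.erase e) := by
  obtain ⟨J, hJ, hmin⟩ := Finset.exists_min_image (I.powerset.filter fun J => Unsat P J)
    Finset.card ⟨I, by simp [h]⟩
  rw [mem_filter, mem_powerset] at hJ
  refine ⟨J, hJ.1, hJ.2, fun e he hu => ?_⟩
  have h1 := hmin (J.erase e) (by
    rw [mem_filter, mem_powerset]
    exact ⟨(Finset.erase_subset _ _).trans hJ.1, hu⟩)
  have h2 := Finset.card_erase_lt_of_mem he
  omega

open Classical in
theorem free_shared {P : (Fin k → ZMod q) → Prop} {c : ℕ} (hP : Free P c) {v : ℕ}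
    {J : Finset (Con q v k)} (hJ : Unsat P J) {e : Con q v k} (he : e ∈ J)
    (hmin : ¬ Unsat P (J.erase e)) :
    c ≤ (univ.filter fun i => e.1 i ∈ varsOf (J.erase e)).card := by
  by_contra hcon
  push Not at hcon
  unfold Unsat at hmin
  push Not at hmin
  obtain ⟨α, hα⟩ := hmin
  obtain ⟨y, hy, hyA⟩ := hP _ (fun i => α (e.1 i) + e.2 i) hcon
  let α' : Fin v → ZMod q := fun x =>
    if h : ∃ i, e.1 i = x then y h.choose - e.2 h.choose else α x
  have h1 : ∀ i, α' (e.1 i) = y i - e.2 i := by
    intro i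
    have h : ∃ i', e.1 i' = e.1 i := ⟨i, rfl⟩
    have h2 : h.choose = i := e.1.injective h.choose_spec
    have h3 : α' (e.1 i) = y h.choose - e.2 h.choose := dif_pos h
    rw [h3, h2]
  have h2 : ∀ x ∈ varsOf (J.erase e), α' x = α x := by
    intro x hx
    by_cases h : ∃ i, e.1 i = x
    · obtain ⟨i, rfl⟩ := h
      rw [h1]
      have := hyA i (by simp only [mem_filter, mem_univ, true_and]; exact hx)
      rw [this]
      ring
    · exact dif_neg h
  obtain ⟨d, hd, hnd⟩ := hJ α'
  apply hnd
  by_cases hde : d = e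
  · subst hde
    unfold Con.Holds
    have : (fun i => α' (d.1 i) + d.2 i) = y := by
      funext i
      rw [h1]
      ring
    rw [this]
    exact hy
  · have hd' : d ∈ J.erase e := mem_erase.mpr ⟨hde, hd⟩
    have h3 := hα d hd'
    unfold Con.Holds at h3 ⊢
    have : (fun i => α' (d.1 i) + d.2 i) = fun i => α (d.1 i) + d.2 i := by
      funext i
      rw [h2]
      exact mem_biUnion.mpr ⟨d, hd', mem_map.mpr ⟨i, mem_univ _, rfl⟩⟩
    rw [this]
    exact h3

open Classical in
theorem free_core {P : (Fin k → ZMod q) → Prop} {c : ℕ} (hP : Free P c) {ρ : ℝ}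
    (h : HasCore P ρ) : ρ ≤ k - (c : ℝ) / 2 := by
  obtain ⟨v, I, hU, hI⟩ := h
  obtain ⟨J, hJI, hJU, hmin⟩ := exists_minimal hU
  have hne := unsat_nonempty hJU
  have h1 := hI J hJI hne
  let w : Con q v k × Fin k → ℕ := fun p =>
    if p.1.1 p.2 ∈ varsOf (J.erase p.1) then 1 else 2
  have hw1 : ∀ p, 1 ≤ w p := by
    intro p
    simp only [w]
    split_ifs <;> omega
  have hsum : ∑ _x ∈ varsOf J, 2 ≤ ∑ p ∈ J ×ˢ (univ : Finset (Fin k)), w p := by
    rw [← Finset.sum_fiberwise_of_maps_to (s := J ×ˢ (univ : Finset (Fin k)))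
      (t := varsOf J) (g := fun p => p.1.1 p.2) (f := w) (by
        rintro ⟨e, i⟩ hp
        rw [mem_product] at hp
        exact mem_biUnion.mpr ⟨e, hp.1, mem_map.mpr ⟨i, mem_univ _, rfl⟩⟩)]
    apply Finset.sum_le_sum
    intro x hx
    obtain ⟨e, he, hxe⟩ := mem_biUnion.mp hx
    obtain ⟨i, -, rfl⟩ := mem_map.mp hxe
    have hmem : (e, i) ∈ (J ×ˢ (univ : Finset (Fin k))).filter fun p => p.1.1 p.2 = e.1 i := by
      simp [he]
    by_cases hs : e.1 i ∈ varsOf (J.erase e)
    · obtain ⟨d, hd, hxd⟩ := mem_biUnion.mp hs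
      obtain ⟨j, -, hj⟩ := mem_map.mp hxd
      rw [mem_erase] at hd
      have hmem2 : (d, j) ∈ (J ×ˢ (univ : Finset (Fin k))).filter
          fun p => p.1.1 p.2 = e.1 i := by
        simp [hd.2, hj]
      have hne' : (e, i) ≠ (d, j) := by
        intro h
        exact hd.1 (Prod.mk.inj h).1.symm
      calc 2 ≤ w (e, i) + w (d, j) := by
            have := hw1 (e, i)
            have := hw1 (d, j)
            omega
        _ = ∑ p ∈ ({(e, i), (d, j)} : Finset (Con q v k × Fin k)), w p := by
            rw [Finset.sum_pair hne']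
        _ ≤ _ := by
            apply Finset.sum_le_sum_of_subset
            intro p hp
            rw [mem_insert, mem_singleton] at hp
            rcases hp with rfl | rfl
            · exact hmem
            · exact hmem2
    · have hw2 : w (e, i) = 2 := by
        simp only [w]
        rw [if_neg hs]
      calc 2 = w (e, i) := hw2.symm
        _ ≤ _ := Finset.single_le_sum (f := w) (fun _ _ => Nat.zero_le _) hmem
  have hsum2 : (∑ p ∈ J ×ˢ (univ : Finset (Fin k)), w p) + c * J.card ≤ 2 * k * J.card := by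
    rw [Finset.sum_product]
    have h2 : ∀ e ∈ J, (∑ i : Fin k, w (e, i)) + c ≤ 2 * k := by
      intro e he
      have h3 := free_shared hP hJU he (hmin e he)
      have h4 : ∑ i : Fin k, w (e, i) +
          (univ.filter fun i => e.1 i ∈ varsOf (J.erase e)).card = 2 * k := by
        rw [Finset.card_filter, ← Finset.sum_add_distrib]
        have : ∀ i : Fin k, w (e, i) + (if e.1 i ∈ varsOf (J.erase e) then 1 else 0) = 2 := by
          intro i
          simp only [w]
          split_ifs <;> rfl
        simp_rw [this]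
        rw [Finset.sum_const, card_univ, Fintype.card_fin, smul_eq_mul, mul_comm]
      omega
    calc (∑ e ∈ J, ∑ i : Fin k, w (e, i)) + c * J.card
        = ∑ e ∈ J, ((∑ i : Fin k, w (e, i)) + c) := by
          rw [Finset.sum_add_distrib, Finset.sum_const, smul_eq_mul, mul_comm c]
      _ ≤ ∑ _e ∈ J, 2 * k := Finset.sum_le_sum h2
      _ = _ := by rw [Finset.sum_const, smul_eq_mul, mul_comm]
  rw [Finset.sum_const, smul_eq_mul] at hsum
  have h3 : (varsOf J).card * 2 + c * J.card ≤ 2 * k * J.card := by omega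
  have h4 : ((varsOf J).card : ℝ) * 2 + c * J.card ≤ 2 * k * J.card := by exact_mod_cast h3
  have h5 : (0 : ℝ) < J.card := by exact_mod_cast Finset.card_pos.mpr hne
  have h6 : ρ * J.card ≤ (k - (c : ℝ) / 2) * J.card := by linarith
  exact le_of_mul_le_mul_right h6 h5

theorem exponent_ge {P : (Fin k → ZMod q) → Prop} (hP : ∃ x, ¬ P x) {c : ℕ} (hc : Free P c) :
    (c : ℝ) / 2 ≤ exponent P := by
  have : sSup {ρ : ℝ | HasCore P ρ} ≤ k - (c : ℝ) / 2 :=
    csSup_le ⟨0, core_zero hP⟩ fun _ h => free_core hc h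
  unfold exponent
  linarith

theorem linear_free (q k : ℕ) [NeZero q] : Free (linear q k) k := by
  classical
  intro A x hA
  have : ∃ i, i ∉ A := by
    by_contra hcon
    push Not at hcon
    have : A = univ := Finset.eq_univ_iff_forall.mpr hcon
    rw [this, card_univ, Fintype.card_fin] at hA
    exact lt_irrefl _ hA
  obtain ⟨i₀, hi₀⟩ := this
  refine ⟨Function.update x i₀ (x i₀ - ∑ i, x i), ?_, ?_⟩
  · unfold linear
    rw [Finset.sum_update_of_mem (mem_univ _)]
    have h1 := Finset.sum_sdiff_eq_sub (f := x) (Finset.subset_univ {i₀})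
    rw [h1, Finset.sum_singleton]
    ring
  · intro i hi
    rw [Function.update_of_ne]
    intro h
    exact hi₀ (h ▸ hi)

theorem linear_exponent (q k : ℕ) (hq : 2 ≤ q) (hk : 1 ≤ k) :
    exponent (linear q k) = (k : ℝ) / 2 := by
  classical
  have : NeZero q := ⟨by omega⟩
  have : Fact (1 < q) := ⟨by omega⟩
  have : Nontrivial (ZMod q) := ZMod.nontrivial q
  let i₀ : Fin k := ⟨0, hk⟩
  have hne : ∃ x, ¬ linear q k x := by
    refine ⟨Pi.single i₀ 1, ?_⟩
    unfold linear
    rw [Finset.sum_pi_single']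
    simp
  apply le_antisymm
  · have hcore : HasCore (linear q k) ((k : ℝ) / 2) := by
      refine ⟨k, {(Function.Embedding.refl _, 0), (Function.Embedding.refl _, Pi.single i₀ 1)},
        ?_, ?_⟩
      · intro α
        by_cases h : linear q k fun i => α i + 0
        · refine ⟨(Function.Embedding.refl _, Pi.single i₀ 1), by simp, ?_⟩
          intro h'
          unfold Con.Holds linear at h'
          unfold linear at h
          simp only [add_zero] at h
          simp only [Function.Embedding.refl_apply] at h'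
          rw [Finset.sum_add_distrib, h, Finset.sum_pi_single'] at h'
          simp at h'
        · exact ⟨(Function.Embedding.refl _, 0), by simp, h⟩
      · intro J hJ hJne
        obtain ⟨e, he⟩ := hJne
        have h1 : (J.card : ℝ) ≤ 2 := by
          have : J.card ≤ 2 := (Finset.card_le_card hJ).trans Finset.card_le_two
          exact_mod_cast this
        have h2 : k ≤ (varsOf J).card := by
          calc k = (univ.map e.1).card := by rw [card_map, card_univ, Fintype.card_fin]
            _ ≤ _ := Finset.card_le_card (Finset.subset_biUnion_of_mem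
              (fun c : Con q k k => univ.map c.1) he)
        have h3 : (k : ℝ) ≤ (varsOf J).card := by exact_mod_cast h2
        have h4 : (0 : ℝ) ≤ k := Nat.cast_nonneg k
        nlinarith
    have := le_csSup (core_bdd (linear q k)) hcore
    unfold exponent
    linarith
  · exact exponent_ge hne (linear_free q k)

end Pool.Agent.W115.Mon2
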