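import Pool.Agent.W115.Mon2.Exponent

/-!
Tree-like unsatisfiable sets of clauses: splitting a clause on a new variable.
-/

set_option linter.unusedSectionVars false

namespace Pool.Agent.W115.Mon2

open Finset Mon

variable {q k : ℕ} [NeZero q]

/-- The variables of a set of clauses; a clause is a set of pairs (variable, value). -/
def vsC (F : Finset (Finset (ℕ × ZMod q))) : Finset ℕ := F.biUnion fun c => c.image Prod.fst

theorem vsC_mono {F F' : Finset (Finset (ℕ × ZMod q))} (h : F ⊆ F') : vsC F ⊆ vsC F' :=
  Finset.biUnion_subset_biUnion_of_subset_left _ h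

/-- Every assignment agrees with all pairs of some clause, and there are `(q - 1) v + 1` clauses
on `v` variables, but at most `(q - 1) v` in every proper subset. -/
structure Good (F : Finset (Finset (ℕ × ZMod q))) : Prop where
  distinct : ∀ c ∈ F, (c.image Prod.fst).card = c.card
  unsat : ∀ α : ℕ → ZMod q, ∃ c ∈ F, ∀ l ∈ c, α l.1 = l.2
  size : F.card = (q - 1) * (vsC F).card + 1
  sub : ∀ J ⊂ F, J.card ≤ (q - 1) * (vsC J).card

theorem good_start : Good ({∅} : Finset (Finset (ℕ × ZMod q))) where
  distinct := by simp
  unsat := by simp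
  size := by simp [vsC]
  sub := by
    intro J hJ
    rw [Finset.ssubset_singleton_iff] at hJ
    rw [hJ]; simp

/-- The clauses replacing `c`. -/
def piece (y : ℕ) (c' : ZMod q → Finset (ℕ × ZMod q)) (j : ZMod q) : Finset (ℕ × ZMod q) :=
  insert (y, j) (c' j)

/-- Replace the clause `c` by the pieces. -/
def split (F : Finset (Finset (ℕ × ZMod q))) (c : Finset (ℕ × ZMod q)) (y : ℕ)
    (c' : ZMod q → Finset (ℕ × ZMod q)) : Finset (Finset (ℕ × ZMod q)) :=
  F.erase c ∪ univ.image (piece y c')

section

variable {F : Finset (Finset (ℕ × ZMod q))} {c : Finset (ℕ × ZMod q)} {y : ℕ}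
  {c' : ZMod q → Finset (ℕ × ZMod q)}

theorem y_notMem (hF : c ∈ F) (hy : y ∉ vsC F) (hsub : ∀ j, c' j ⊆ c) (j : ZMod q)
    (b : ZMod q) : (y, b) ∉ c' j := fun h =>
  hy (mem_biUnion.mpr ⟨c, hF, mem_image.mpr ⟨(y, b), hsub j h, rfl⟩⟩)

theorem piece_inj (hF : c ∈ F) (hy : y ∉ vsC F) (hsub : ∀ j, c' j ⊆ c) :
    Function.Injective (piece y c') := by
  intro i j h
  have h1 : (y, i) ∈ piece y c' j := by
    rw [← h]; exact mem_insert_self _ _
  rcases mem_insert.mp h1 with h2 | h2
  · exact (Prod.mk.inj h2).2
  · exact absurd h2 (y_notMem hF hy hsub j i)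

theorem piece_notMem (hy : y ∉ vsC F) (j : ZMod q) :
    piece y c' j ∉ F := fun h =>
  hy (mem_biUnion.mpr ⟨_, h, mem_image.mpr ⟨(y, j), mem_insert_self _ _, rfl⟩⟩)

theorem piece_vars (j : ZMod q) :
    (piece y c' j).image Prod.fst = insert y ((c' j).image Prod.fst) := by
  rw [piece, Finset.image_insert]

theorem split_vars (hF : c ∈ F) (hsub : ∀ j, c' j ⊆ c) (hcov : ∀ l ∈ c, ∃ j, l ∈ c' j) :
    vsC (split F c y c') = insert y (vsC F) := by
  ext x
  simp only [vsC, split, mem_biUnion, mem_union, mem_erase, mem_insert]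
  constructor
  · rintro ⟨d, hd, hx⟩
    rcases hd with ⟨_, hd⟩ | hd
    · exact Or.inr ⟨d, hd, hx⟩
    · obtain ⟨j, -, rfl⟩ := mem_image.mp hd
      rw [piece_vars, mem_insert] at hx
      rcases hx with hx | hx
      · exact Or.inl hx
      · right
        exact ⟨c, hF, (Finset.image_subset_image (hsub j)) hx⟩
  · rintro (rfl | ⟨d, hd, hx⟩)
    · refine ⟨piece x c' 0, Or.inr (mem_image_of_mem _ (mem_univ _)), ?_⟩
      rw [piece_vars]; exact mem_insert_self _ _
    · by_cases hdc : d = c
      · subst hdc
        obtain ⟨l, hl, rfl⟩ := mem_image.mp hx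
        obtain ⟨j, hj⟩ := hcov l hl
        refine ⟨piece y c' j, Or.inr (mem_image_of_mem _ (mem_univ _)), ?_⟩
        rw [piece_vars]
        exact mem_insert_of_mem (mem_image_of_mem _ hj)
      · exact ⟨d, Or.inl ⟨hdc, hd⟩, hx⟩

theorem split_good (hG : Good F) (hF : c ∈ F) (hy : y ∉ vsC F)
    (hsub : ∀ j, c' j ⊆ c) (hcov : ∀ l ∈ c, ∃ j, l ∈ c' j) : Good (split F c y c') := by
  have hq : 1 ≤ q := Nat.one_le_iff_ne_zero.mpr (NeZero.ne q)
  have hdisj : Disjoint (F.erase c) (univ.image (piece y c')) := by
    rw [Finset.disjoint_left]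
    intro d hd hd'
    obtain ⟨j, -, rfl⟩ := mem_image.mp hd'
    exact piece_notMem hy j (mem_of_mem_erase hd)
  have hvars := split_vars (y := y) hF hsub hcov
  refine ⟨?_, ?_, ?_, ?_⟩
  · intro d hd
    rw [split, mem_union] at hd
    rcases hd with hd | hd
    · exact hG.distinct d (mem_of_mem_erase hd)
    · obtain ⟨j, -, rfl⟩ := mem_image.mp hd
      have h1 : y ∉ (c' j).image Prod.fst := by
        intro h
        obtain ⟨l, hl, hly⟩ := mem_image.mp h
        apply y_notMem hF hy hsub j l.2
        rw [← hly]; exact hl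
      rw [piece_vars, Finset.card_insert_of_notMem h1, piece,
        Finset.card_insert_of_notMem (y_notMem hF hy hsub j j)]
      congr 1
      have h2 : Set.InjOn Prod.fst (c : Set (ℕ × ZMod q)) :=
        Finset.card_image_iff.mp (hG.distinct c hF)
      exact Finset.card_image_of_injOn (h2.mono (by exact_mod_cast hsub j))
  · intro α
    obtain ⟨d, hd, hα⟩ := hG.unsat α
    by_cases hdc : d = c
    · subst hdc
      refine ⟨piece y c' (α y), mem_union_right _ (mem_image_of_mem _ (mem_univ _)), ?_⟩
      intro l hl
      rcases mem_insert.mp hl with rfl | hl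
      · rfl
      · exact hα l (hsub _ hl)
    · exact ⟨d, mem_union_left _ (mem_erase.mpr ⟨hdc, hd⟩), hα⟩
  · rw [hvars, Finset.card_insert_of_notMem hy, split, Finset.card_union_of_disjoint hdisj,
      Finset.card_erase_of_mem hF, hG.size,
      Finset.card_image_of_injective _ (piece_inj hF hy hsub), card_univ, ZMod.card, mul_add,
      mul_one]
    omega
  · intro J hJ
    set J₁ := J.filter fun d => d ∈ F.erase c with hJ₁
    set A := univ.filter fun j => piece y c' j ∈ J with hA
    have hJe : J = J₁ ∪ A.image (piece y c') := by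
      ext d
      simp only [hJ₁, hA, mem_union, mem_filter, mem_image, mem_univ, true_and]
      constructor
      · intro hd
        have := hJ.1 hd
        rw [split, mem_union] at this
        rcases this with h | h
        · exact Or.inl ⟨hd, h⟩
        · obtain ⟨j, -, rfl⟩ := mem_image.mp h
          exact Or.inr ⟨j, hd, rfl⟩
      · rintro (⟨hd, -⟩ | ⟨j, hj, rfl⟩)
        · exact hd
        · exact hj
    have hcard : J.card ≤ J₁.card + A.card := by
      rw [hJe]
      refine (Finset.card_union_le _ _).trans ?_
      have h1 : (J₁ ∪ A.image (piece y c')).filter (fun d => d ∈ F.erase c) = J₁ := by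
        rw [← hJe]
      exact Nat.add_le_add_left card_image_le _
    have hJ₁F : J₁ ⊆ F.erase c := fun d hd => (mem_filter.mp hd).2
    have hJ₁s : J₁ ⊂ F := (Finset.ssubset_iff_subset_ne.mpr ⟨hJ₁F.trans (erase_subset _ _), by
      intro h
      have := hJ₁F (h ▸ hF : c ∈ J₁)
      exact (mem_erase.mp this).1 rfl⟩)
    have hJ₁J : J₁ ⊆ J := Finset.filter_subset _ _
    have hyJ₁ : y ∉ vsC J₁ := fun h => hy (vsC_mono hJ₁s.1 h)
    have hyJ : A.Nonempty → insert y (vsC J₁) ⊆ vsC J := by
      rintro ⟨j, hj⟩ x hx
      rcases mem_insert.mp hx with rfl | hx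
      · refine mem_biUnion.mpr ⟨piece x c' j, (mem_filter.mp hj).2, ?_⟩
        rw [piece_vars]; exact mem_insert_self _ _
      · exact vsC_mono hJ₁J hx
    have hAq : A.card ≤ q := by
      have := Finset.card_le_univ A
      rwa [ZMod.card] at this
    rcases A.eq_empty_or_nonempty with hA0 | hAne
    · rw [hA0, card_empty, add_zero] at hcard
      exact hcard.trans ((hG.sub J₁ hJ₁s).trans (Nat.mul_le_mul_left _
        (Finset.card_le_card (vsC_mono hJ₁J))))
    · by_cases hAf : A = univ
      · -- all the pieces
        have hJ₁c : insert c J₁ ⊂ F := by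
          refine Finset.ssubset_iff_subset_ne.mpr ⟨?_, ?_⟩
          · intro d hd
            rcases mem_insert.mp hd with rfl | hd
            · exact hF
            · exact hJ₁s.1 hd
          · intro h
            apply hJ.2
            intro d hd
            rw [split, mem_union] at hd
            rcases hd with hd | hd
            · have h1 : d ∈ insert c J₁ := by rw [h]; exact mem_of_mem_erase hd
              rcases mem_insert.mp h1 with h2 | h2
              · exact absurd h2 (mem_erase.mp hd).1
              · exact hJ₁J h2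
            · obtain ⟨j, -, rfl⟩ := mem_image.mp hd
              have : j ∈ A := by rw [hAf]; exact mem_univ _
              exact (mem_filter.mp this).2
        have h1 := hG.sub _ hJ₁c
        have hcJ₁ : c ∉ J₁ := fun h => (mem_erase.mp (hJ₁F h)).1 rfl
        rw [Finset.card_insert_of_notMem hcJ₁] at h1
        have hyc : y ∉ vsC (insert c J₁) := fun h => hy (vsC_mono hJ₁c.1 h)
        have h2 : insert y (vsC (insert c J₁)) ⊆ vsC J := by
          intro x hx
          rcases mem_insert.mp hx with rfl | hx
          · exact hyJ hAne (mem_insert_self _ _)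
          · obtain ⟨d, hd, hxd⟩ := mem_biUnion.mp hx
            rcases mem_insert.mp hd with rfl | hd
            · obtain ⟨l, hl, rfl⟩ := mem_image.mp hxd
              obtain ⟨j, hj⟩ := hcov l hl
              have hjA : j ∈ A := by rw [hAf]; exact mem_univ _
              refine mem_biUnion.mpr ⟨piece y c' j, (mem_filter.mp hjA).2, ?_⟩
              rw [piece_vars]
              exact mem_insert_of_mem (mem_image_of_mem _ hj)
            · exact mem_biUnion.mpr ⟨d, hJ₁J hd, hxd⟩
        have h3 := Finset.card_le_card h2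
        rw [Finset.card_insert_of_notMem hyc] at h3
        calc J.card ≤ J₁.card + q := hcard.trans (Nat.add_le_add_left hAq _)
          _ ≤ (q - 1) * (vsC (insert c J₁)).card + (q - 1) := by omega
          _ = (q - 1) * ((vsC (insert c J₁)).card + 1) := by ring
          _ ≤ _ := Nat.mul_le_mul_left _ h3
      · have h0 : A.card < q := by
          have := Finset.card_lt_card (Finset.ssubset_univ_iff.mpr hAf)
          rwa [card_univ, ZMod.card] at this
        have h1 := hG.sub J₁ hJ₁s
        have h3 := Finset.card_le_card (hyJ hAne)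
        rw [Finset.card_insert_of_notMem hyJ₁] at h3
        calc J.card ≤ J₁.card + A.card := hcard
          _ ≤ (q - 1) * (vsC J₁).card + (q - 1) := by omega
          _ = (q - 1) * ((vsC J₁).card + 1) := by ring
          _ ≤ _ := Nat.mul_le_mul_left _ h3

end

theorem exists_fresh (F : Finset (Finset (ℕ × ZMod q))) : ∃ y, y ∉ vsC F :=
  Infinite.exists_notMem_finset _

/-- Width `k` for all clauses. -/
theorem exists_width (k : ℕ) : ∃ F : Finset (Finset (ℕ × ZMod q)), Good F ∧
    ∀ c ∈ F, c.card = k := by
  classical
  induction k with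
  | zero => exact ⟨{∅}, good_start, by simp⟩
  | succ k ih =>
    obtain ⟨F₀, hF₀, hk₀⟩ := ih
    suffices H : ∀ r : ℕ, ∀ F : Finset (Finset (ℕ × ZMod q)), Good F →
        (∀ c ∈ F, c.card = k ∨ c.card = k + 1) → (F.filter fun c => c.card = k).card = r →
        ∃ F' : Finset (Finset (ℕ × ZMod q)), Good F' ∧ ∀ c ∈ F', c.card = k + 1 from
      H _ F₀ hF₀ (fun c hc => Or.inl (hk₀ c hc)) rfl
    intro r
    induction r with
    | zero =>
      intro F hF hw hr
      rw [Finset.card_eq_zero] at hr
      refine ⟨F, hF, fun c hc => ?_⟩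
      rcases hw c hc with h | h
      · have : c ∈ F.filter fun c => c.card = k := mem_filter.mpr ⟨hc, h⟩
        rw [hr] at this
        exact absurd this (notMem_empty _)
      · exact h
    | succ r ihr =>
      intro F hF hw hr
      have hne : (F.filter fun c => c.card = k).Nonempty := by
        rw [← Finset.card_pos]; omega
      obtain ⟨c, hc⟩ := hne
      rw [mem_filter] at hc
      obtain ⟨y, hy⟩ := exists_fresh F
      have hsub : ∀ _j : ZMod q, c ⊆ c := fun _ => subset_rfl
      have hg := split_good (c' := fun _ => c) hF hc.1 hy hsub (fun l hl => ⟨0, hl⟩)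
      have hpc : ∀ j, (piece y (fun _ => c) j).card = k + 1 := by
        intro j
        rw [piece, Finset.card_insert_of_notMem (y_notMem hc.1 hy hsub j j), hc.2]
      refine ihr _ hg ?_ ?_
      · intro d hd
        rw [split, mem_union] at hd
        rcases hd with hd | hd
        · exact hw d (mem_of_mem_erase hd)
        · obtain ⟨j, -, rfl⟩ := mem_image.mp hd
          exact Or.inr (hpc j)
      · have h1 : (split F c y fun _ => c).filter (fun d => d.card = k) =
            (F.filter fun d => d.card = k).erase c := by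
          ext d
          simp only [split, mem_filter, mem_union, mem_erase, mem_image, mem_univ, true_and]
          constructor
          · rintro ⟨⟨h1, h2⟩ | ⟨j, rfl⟩, h3⟩
            · exact ⟨h1, h2, h3⟩
            · rw [hpc] at h3; omega
          · rintro ⟨h1, h2, h3⟩
            exact ⟨Or.inl ⟨h1, h2⟩, h3⟩
        rw [h1, Finset.card_erase_of_mem (mem_filter.mpr hc), hr]
        omega

/-- Many variables. -/
theorem exists_large (hq : 2 ≤ q) (hk : 2 ≤ k) (N : ℕ) :
    ∃ F : Finset (Finset (ℕ × ZMod q)), Good F ∧ (∀ c ∈ F, c.card = k) ∧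
      N ≤ (vsC F).card := by
  classical
  have : Fact (1 < q) := ⟨by omega⟩
  have : Nontrivial (ZMod q) := ZMod.nontrivial q
  induction N with
  | zero =>
    obtain ⟨F, hF, hw⟩ := exists_width (q := q) k
    exact ⟨F, hF, hw, Nat.zero_le _⟩
  | succ N ih =>
    obtain ⟨F, hF, hw, hN⟩ := ih
    have hne : F.Nonempty := by
      rw [← Finset.card_pos, hF.size]; omega
    obtain ⟨c, hc⟩ := hne
    have hck := hw c hc
    obtain ⟨l, hl, l', hl', hll⟩ := Finset.one_lt_card.mp (by omega : 1 < c.card)
    obtain ⟨y, hy⟩ := exists_fresh F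
    let c' : ZMod q → Finset (ℕ × ZMod q) := fun j => if j = 0 then c.erase l else c.erase l'
    have hsub : ∀ j, c' j ⊆ c := by
      intro j
      simp only [c']
      split_ifs <;> exact erase_subset _ _
    have hcov : ∀ x ∈ c, ∃ j, x ∈ c' j := by
      intro x hx
      by_cases hxl : x = l
      · refine ⟨1, ?_⟩
        simp only [c', one_ne_zero, if_false]
        rw [hxl]
        exact mem_erase.mpr ⟨hll, hl⟩
      · refine ⟨0, ?_⟩
        simp only [c', if_true]
        exact mem_erase.mpr ⟨hxl, hx⟩
    refine ⟨split F c y c', split_good hF hc hy hsub hcov, ?_, ?_⟩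
    · intro d hd
      rw [split, mem_union] at hd
      rcases hd with hd | hd
      · exact hw d (mem_of_mem_erase hd)
      · obtain ⟨j, -, rfl⟩ := mem_image.mp hd
        rw [piece, Finset.card_insert_of_notMem (y_notMem hc hy hsub j j)]
        have : (c' j).card = k - 1 := by
          simp only [c']
          split_ifs
          · rw [Finset.card_erase_of_mem hl, hck]
          · rw [Finset.card_erase_of_mem hl', hck]
        omega
    · rw [split_vars hc hsub hcov, Finset.card_insert_of_notMem hy]
      omega

end Pool.Agent.W115.Mon2
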